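import Mathlib
import Pool.Agent.H211.HY.Stm2
import Pool.Graph.R_seed8.H790R3.RB.Basic
import Pool.Graph.R_seed8.H790R3.RB.TPOLY

/-! PROP: `H` is holomorphic outside a finite set (project HY of helper211). -/

set_option autoImplicit false

open Topology Filter Metric Set MeasureTheory Polynomial

namespace Pool.Agent.H766.HY211

open Pool.Agent.H790R3.RB Pool.Agent.H211.HY

/-- small chordal discs about `(y, 1)` are contained in the cone over `ball y R` -/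
theorem near (y : ℂ) (R : ℝ) (hR : 0 < R) (q : ℂ × ℂ) (hq : q ≠ 0)
    (h : cho (y, 1) q < R / ((1 + ‖y‖) * (R + 1 + ‖y‖))) : ‖q.1 - y * q.2‖ < R * ‖q.2‖ := by
  by_contra hcon
  push Not at hcon
  have hy0 : 0 ≤ ‖y‖ := norm_nonneg y
  have hq1 : ‖q.1‖ ≤ ‖q.1 - y * q.2‖ + ‖y‖ * ‖q.2‖ := by
    calc ‖q.1‖ = ‖(q.1 - y * q.2) + y * q.2‖ := by ring_nf
      _ ≤ ‖q.1 - y * q.2‖ + ‖y * q.2‖ := norm_add_le _ _
      _ = _ := by rw [norm_mul]
  have hs0 : 0 < ‖q.1 - y * q.2‖ := by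
    rcases (norm_nonneg (q.1 - y * q.2)).lt_or_eq with h1 | h1
    · exact h1
    · exfalso
      rw [← h1] at hcon hq1
      have h2 : ‖q.2‖ = 0 := by
        have := norm_nonneg q.2
        nlinarith
      rw [h2] at hq1
      have h3 : ‖q.1‖ = 0 := le_antisymm (by simpa using hq1) (norm_nonneg _)
      exact hq (Prod.ext (norm_eq_zero.1 h3) (norm_eq_zero.1 h2))
  have hcr : ‖cr (y, 1) q‖ = ‖q.1 - y * q.2‖ := by
    rw [← norm_neg]
    congr 1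
    simp only [cr]
    ring
  have hN1 : N2 (y, 1) ≤ (1 + ‖y‖) ^ 2 := by
    simp only [N2, norm_one]
    nlinarith
  have h2s : ‖q.2‖ ≤ ‖q.1 - y * q.2‖ / R := by
    rw [le_div_iff₀ hR]
    linarith
  have hsum : ‖q.1‖ + ‖q.2‖ ≤ ‖q.1 - y * q.2‖ * (R + 1 + ‖y‖) / R := by
    have : ‖q.1 - y * q.2‖ * (R + 1 + ‖y‖) / R =
        ‖q.1 - y * q.2‖ + (1 + ‖y‖) * (‖q.1 - y * q.2‖ / R) := by
      field_simp
      ring
    rw [this]
    nlinarith
  have hN2 : N2 q ≤ (‖q.1 - y * q.2‖ * (R + 1 + ‖y‖) / R) ^ 2 := by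
    have h1 : N2 q ≤ (‖q.1‖ + ‖q.2‖) ^ 2 := by
      simp only [N2]
      nlinarith [norm_nonneg q.1, norm_nonneg q.2]
    refine h1.trans (pow_le_pow_left₀ (by positivity) hsum 2)
  have hN20 : 0 < N2 q := by
    simp only [N2]
    by_contra h0
    push Not at h0
    have h1 : ‖q.1‖ = 0 := by nlinarith [sq_nonneg ‖q.1‖, sq_nonneg ‖q.2‖]
    have h2 : ‖q.2‖ = 0 := by nlinarith [sq_nonneg ‖q.1‖, sq_nonneg ‖q.2‖]
    exact hq (Prod.ext (norm_eq_zero.1 h1) (norm_eq_zero.1 h2))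
  have hN10 : 0 < N2 (y, 1) := by
    simp only [N2, norm_one]
    positivity
  have hsq : Real.sqrt (N2 (y, 1) * N2 q) ≤
      (1 + ‖y‖) * (‖q.1 - y * q.2‖ * (R + 1 + ‖y‖) / R) := by
    rw [Real.sqrt_le_left (by positivity), mul_pow]
    exact mul_le_mul hN1 hN2 hN20.le (by positivity)
  have hle : R / ((1 + ‖y‖) * (R + 1 + ‖y‖)) ≤ cho (y, 1) q := by
    unfold cho
    rw [hcr, div_le_div_iff₀ (by positivity) (Real.sqrt_pos.2 (mul_pos hN10 hN20))]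
    calc R * Real.sqrt (N2 (y, 1) * N2 q)
        ≤ R * ((1 + ‖y‖) * (‖q.1 - y * q.2‖ * (R + 1 + ‖y‖) / R)) :=
          mul_le_mul_of_nonneg_left hsq hR.le
      _ = ‖q.1 - y * q.2‖ * ((1 + ‖y‖) * (R + 1 + ‖y‖)) := by field_simp
  exact absurd h (not_lt.2 hle)

/-- some iterate maps `ball y R` onto the sphere -/
theorem onto {d : ℕ} {x : CV d} (hL : LEO x) (y : ℂ) (R : ℝ) (hR : 0 < R) :
    ∃ N : ℕ, ∀ a : ℂ × ℂ, a ≠ 0 → ∃ w ∈ ball y R, cr ((hF x)^[N] (w, 1)) a = 0 := by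
  obtain ⟨N, hN⟩ := hL (R / ((1 + ‖y‖) * (R + 1 + ‖y‖))) (by positivity)
  refine ⟨N, fun a ha => ?_⟩
  have hy1 : ((y, 1) : ℂ × ℂ) ≠ 0 := fun h => by simpa using congrArg Prod.snd h
  obtain ⟨q, hq, hc, h0⟩ := hN N le_rfl (y, 1) a hy1 ha
  have h1 := near y R hR q hq hc
  have hq2 : q.2 ≠ 0 := by
    intro h2
    rw [h2] at h1
    simp at h1
    linarith [norm_nonneg q.1]
  have hq20 : 0 < ‖q.2‖ := norm_pos_iff.2 hq2
  refine ⟨q.1 / q.2, ?_, ?_⟩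
  · rw [mem_ball, dist_eq_norm]
    have h3 : q.1 / q.2 - y = (q.1 - y * q.2) / q.2 := by field_simp
    rw [h3, norm_div, div_lt_iff₀ hq20]
    exact h1
  · have h3 : ((q.1 / q.2, 1) : ℂ × ℂ) = q.2⁻¹ • q := by
      apply Prod.ext
      · simp only [Prod.smul_fst, smul_eq_mul]; field_simp
      · simp only [Prod.smul_snd, smul_eq_mul]; field_simp
    rw [h3, hF_iter_smul, cr_smul_left, h0, mul_zero]

theorem pol_eval' {d : ℕ} (x : CV d) (z : ℂ) :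
    hF x (z, 1) = ((pol x 0).eval z, (pol x 1).eval z) := by
  unfold pol hF
  simp only [eval_finsetSum, eval_monomial, one_pow, mul_one]

/-- the iterates of `pf x` outside the poles -/
theorem pf_iter {d : ℕ} (x : CV d) (n : ℕ) (z : ℂ) (h : ∀ j ≤ n, ((hF x)^[j] (z, 1)).2 ≠ 0) :
    (pf x)^[n] z = ((hF x)^[n] (z, 1)).1 / ((hF x)^[n] (z, 1)).2 := by
  induction n with
  | zero => simp
  | succ n ih =>
    have h1 := ih (fun j hj => h j (hj.trans n.le_succ))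
    have hp2 := h n n.le_succ
    have hp3 := h (n + 1) le_rfl
    rw [Function.iterate_succ_apply'] at hp3
    rw [Function.iterate_succ_apply', Function.iterate_succ_apply', h1]
    set p := (hF x)^[n] (z, 1) with hp
    have h3 : p = p.2 • ((p.1 / p.2, 1) : ℂ × ℂ) := by
      apply Prod.ext
      · simp only [Prod.smul_fst, smul_eq_mul]; field_simp
      · simp only [Prod.smul_snd, smul_eq_mul, mul_one]
    have h4 : hF x p = p.2 ^ d • ((pol x 0).eval (p.1 / p.2), (pol x 1).eval (p.1 / p.2)) := by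
      conv_lhs => rw [h3]
      rw [hF_smul, pol_eval']
    have h5 : p.2 ^ d ≠ 0 := pow_ne_zero _ hp2
    rw [h4]
    simp only [Prod.smul_fst, Prod.smul_snd, smul_eq_mul]
    rw [mul_div_mul_left _ _ h5]
    rfl

/-- the iterate is not constant -/
theorem wronsk_ne {d : ℕ} {x : CV d} (hx : ND x) {N : ℕ}
    (hon : ∀ a : ℂ × ℂ, a ≠ 0 → ∃ w : ℂ, cr ((hF x)^[N] (w, 1)) a = 0)
    {A B : ℂ[X]} (hA : ∀ ζ : ℂ, A.eval ζ = ((hF x)^[N] (ζ, 1)).1)
    (hB : ∀ ζ : ℂ, B.eval ζ = ((hF x)^[N] (ζ, 1)).2) :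
    derivative A * B - A * derivative B ≠ 0 := by
  intro h0
  have hne : ∀ ζ : ℂ, (hF x)^[N] (ζ, 1) ≠ 0 := fun ζ => hx.iter_ne N
    (fun h => by simpa using congrArg Prod.snd h)
  have hco : IsCoprime A B := by
    rw [isCoprime_iff_aeval_ne_zero_of_isAlgClosed ℂ ℂ]
    intro a
    by_contra h
    push Not at h
    rw [coe_aeval_eq_eval, hA, hB] at h
    exact hne a (Prod.ext h.1 h.2)
  have h1 : derivative A * B = A * derivative B := sub_eq_zero.1 h0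
  have h2 : B ∣ derivative B := by
    have : B ∣ A * derivative B := ⟨derivative A, by rw [← h1]; ring⟩
    exact hco.symm.dvd_of_dvd_mul_left this
  have h3 : A ∣ derivative A := by
    have : A ∣ derivative A * B := ⟨derivative B, h1⟩
    exact hco.dvd_of_dvd_mul_right this
  have hBc := eq_C_of_derivative_eq_zero (dvd_derivative_iff.1 h2)
  have hAc := eq_C_of_derivative_eq_zero (dvd_derivative_iff.1 h3)
  have hA' : ∀ ζ : ℂ, ((hF x)^[N] (ζ, 1)).1 = A.coeff 0 := by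
    intro ζ
    rw [← hA, hAc, eval_C, coeff_C_zero]
  have hB' : ∀ ζ : ℂ, ((hF x)^[N] (ζ, 1)).2 = B.coeff 0 := by
    intro ζ
    rw [← hB, hBc, eval_C, coeff_C_zero]
  obtain ⟨w, hw⟩ := hon (1, 0) (fun h => by simpa using congrArg Prod.fst h)
  obtain ⟨w', hw'⟩ := hon (0, 1) (fun h => by simpa using congrArg Prod.snd h)
  simp only [cr, hA', hB'] at hw hw'
  simp only [mul_zero, mul_one, zero_sub, neg_eq_zero, sub_zero] at hw hw'
  exact hne w (Prod.ext ((hA' w).trans hw') ((hB' w).trans hw))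

/-- no iterate is constant infinity -/
theorem den_ne {d : ℕ} {x : CV d} (hx : ND x) {N : ℕ}
    (hon : ∀ a : ℂ × ℂ, a ≠ 0 → ∃ w : ℂ, cr ((hF x)^[N] (w, 1)) a = 0)
    {j : ℕ} (hj : j ≤ N) {B : ℂ[X]} (hB : ∀ ζ : ℂ, B.eval ζ = ((hF x)^[j] (ζ, 1)).2) :
    B ≠ 0 := by
  intro h0
  have hne1 : ((1, 0) : ℂ × ℂ) ≠ 0 := fun h => by simpa using congrArg Prod.fst h
  set v := (hF x)^[N - j] (1, 0) with hv
  have hv0 : v ≠ 0 := hx.iter_ne _ hne1
  have key : ∀ ζ : ℂ, ∃ c : ℂ, c ≠ 0 ∧ (hF x)^[N] (ζ, 1) = c • v := by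
    intro ζ
    have h2 : ((hF x)^[j] (ζ, 1)).2 = 0 := by rw [← hB, h0, eval_zero]
    have h3 : (hF x)^[j] (ζ, 1) = ((hF x)^[j] (ζ, 1)).1 • ((1, 0) : ℂ × ℂ) := by
      apply Prod.ext
      · simp
      · simpa using h2
    have h4 : ((hF x)^[j] (ζ, 1)).1 ≠ 0 := by
      intro h5
      exact hx.iter_ne j (p := (ζ, 1)) (fun h => by simpa using congrArg Prod.snd h)
        (Prod.ext h5 h2)
    refine ⟨((hF x)^[j] (ζ, 1)).1 ^ (d ^ (N - j)), pow_ne_zero _ h4, ?_⟩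
    have h6 : (hF x)^[N] (ζ, 1) = (hF x)^[N - j] ((hF x)^[j] (ζ, 1)) := by
      rw [← Function.iterate_add_apply, Nat.sub_add_cancel hj]
    rw [h6]
    conv_lhs => rw [h3]
    rw [hF_iter_smul]
  have key2 : ∀ a : ℂ × ℂ, a ≠ 0 → cr v a = 0 := by
    intro a ha
    obtain ⟨w, hw⟩ := hon a ha
    obtain ⟨c, hc, h⟩ := key w
    rw [h, cr_smul_left] at hw
    exact (mul_eq_zero.1 hw).resolve_left hc
  have k1 := key2 (1, 0) hne1
  have k2 := key2 (0, 1) (fun h => by simpa using congrArg Prod.snd h)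
  simp only [cr, mul_zero, mul_one, zero_sub, neg_eq_zero, sub_zero] at k1 k2
  exact hv0 (Prod.ext k2 k1)

/-- glueing local functions -/
theorem glue (H : ℂ → ℂ) (E : Finset ℂ) (hloc : ∀ τ : ℂ, τ ∉ E → ∃ ρ > (0 : ℝ), ∃ g : ℂ → ℂ,
      DifferentiableOn ℂ g (ball τ ρ) ∧ (∀ z ∈ ball τ ρ, g z ≠ 0) ∧
      ∀ᵐ z : ℂ, z ∈ ball τ ρ → H z = g z) :
    ∃ h : ℂ → ℂ, DifferentiableOn ℂ h (E : Set ℂ)ᶜ ∧ (∀ z ∉ E, h z ≠ 0) ∧
      ∀ᵐ z : ℂ, H z = h z := by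
  classical
  choose! ρ hρ g hg hg0 hgH using hloc
  have hopen : IsOpen ((E : Set ℂ)ᶜ) := E.finite_toSet.isClosed.isOpen_compl
  have hagree : ∀ τ : ℂ, τ ∉ E → ∀ σ : ℂ, σ ∉ E → σ ∈ ball τ (ρ τ) → g σ σ = g τ σ := by
    intro τ hτ σ hσ hmem
    have hae : g σ =ᵐ[volume.restrict (ball τ (ρ τ) ∩ ball σ (ρ σ))] g τ := by
      rw [Filter.EventuallyEq, ae_restrict_iff' (isOpen_ball.inter isOpen_ball).measurableSet]
      filter_upwards [hgH τ hτ, hgH σ hσ] with z h1 h2 hz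
      rw [← h1 hz.1, ← h2 hz.2]
    have heq := MeasureTheory.Measure.eqOn_open_of_ae_eq hae (isOpen_ball.inter isOpen_ball)
      ((hg σ hσ).continuousOn.mono inter_subset_right)
      ((hg τ hτ).continuousOn.mono inter_subset_left)
    exact heq ⟨hmem, mem_ball_self (hρ σ hσ)⟩
  refine ⟨fun z => g z z, ?_, ?_, ?_⟩
  · intro τ hτ
    have hτ' : τ ∉ E := fun h => hτ (Finset.mem_coe.2 h)
    have hev : (fun z => g z z) =ᶠ[𝓝 τ] g τ := by
      filter_upwards [isOpen_ball.mem_nhds (mem_ball_self (hρ τ hτ')), hopen.mem_nhds hτ]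
        with z h1 h2
      exact hagree τ hτ' z (fun h => h2 (Finset.mem_coe.2 h)) h1
    have hd : DifferentiableAt ℂ (g τ) τ :=
      (hg τ hτ').differentiableAt (isOpen_ball.mem_nhds (mem_ball_self (hρ τ hτ')))
    exact (hev.symm.differentiableAt_iff.1 hd).differentiableWithinAt
  · intro z hz
    exact hg0 z hz z (mem_ball_self (hρ z hz))
  · have hnull : volume ({z : ℂ | ¬ (H z = g z z)} ∩ (E : Set ℂ)ᶜ) = 0 := by
      apply measure_null_of_locally_null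
      rintro τ ⟨-, hτ⟩
      have hτ' : τ ∉ E := fun h => hτ (Finset.mem_coe.2 h)
      refine ⟨({z : ℂ | ¬ (H z = g z z)} ∩ (E : Set ℂ)ᶜ) ∩ ball τ (ρ τ),
        inter_mem self_mem_nhdsWithin
          (mem_nhdsWithin_of_mem_nhds (isOpen_ball.mem_nhds (mem_ball_self (hρ τ hτ')))), ?_⟩
      refine measure_mono_null ?_ (hgH τ hτ')
      rintro z ⟨⟨h1, h2⟩, h3⟩ h4
      apply h1
      rw [h4 h3]
      exact (hagree τ hτ' z (fun h => h2 (Finset.mem_coe.2 h)) h3).symm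
    have hE : volume (E : Set ℂ) = 0 := E.finite_toSet.measure_zero _
    refine measure_mono_null ?_ (measure_union_null hnull hE)
    intro z hz
    by_cases h : z ∈ (E : Set ℂ)
    · exact Or.inr h
    · exact Or.inl ⟨hz, h⟩

/-- a local inverse near `τ = F w₀` -/
theorem local_inv {F : ℂ → ℂ} {Ω : Set ℂ} (hΩ : IsOpen Ω) (hF : DifferentiableOn ℂ F Ω) {w₀ : ℂ}
    (hw₀ : w₀ ∈ Ω) (hd : deriv F w₀ ≠ 0) {U : Set ℂ} (hU : IsOpen U) (hwU : w₀ ∈ U) :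
    ∃ ρ > (0 : ℝ), ∃ ψ : ℂ → ℂ, DifferentiableOn ℂ ψ (ball (F w₀) ρ) ∧
      ∀ u ∈ ball (F w₀) ρ, ψ u ∈ Ω ∧ ψ u ∈ U ∧ deriv F (ψ u) ≠ 0 ∧ F (ψ u) = u := by
  have hana : AnalyticAt ℂ F w₀ := (hF.analyticOnNhd hΩ) w₀ hw₀
  have hcd : ContDiffAt ℂ 1 F w₀ := hana.contDiffAt
  have hderiv : HasDerivAt F (deriv F w₀) w₀ := hana.differentiableAt.hasDerivAt
  have hfd : HasFDerivAt F ((ContinuousLinearEquiv.unitsEquivAut ℂ (Units.mk0 _ hd) :
      ℂ ≃L[ℂ] ℂ) : ℂ →L[ℂ] ℂ) w₀ := by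
    have h1 := hderiv.hasFDerivAt
    have h2 : ContinuousLinearMap.toSpanSingleton ℂ (deriv F w₀) =
        ((ContinuousLinearEquiv.unitsEquivAut ℂ (Units.mk0 _ hd) : ℂ ≃L[ℂ] ℂ) : ℂ →L[ℂ] ℂ) := by
      ext
      simp
    rw [h2] at h1
    exact h1
  set ψ := hcd.localInverse hfd one_ne_zero with hψ
  have hψ0 : ψ (F w₀) = w₀ := hcd.localInverse_apply_image hfd one_ne_zero
  have hψc : ContDiffAt ℂ 1 ψ (F w₀) := hcd.to_localInverse hfd one_ne_zero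
  have hright : ∀ᶠ u in 𝓝 (F w₀), F (ψ u) = u :=
    (hcd.hasStrictFDerivAt' hfd one_ne_zero).eventually_right_inverse
  have hdiff : ∀ᶠ u in 𝓝 (F w₀), DifferentiableAt ℂ ψ u := by
    filter_upwards [hψc.eventually (by simp)] with u hu
    exact hu.differentiableAt (by simp)
  have hcont : Tendsto ψ (𝓝 (F w₀)) (𝓝 w₀) := by
    have := hψc.continuousAt
    rw [ContinuousAt, hψ0] at this
    exact this
  have hdo : DifferentiableOn ℂ (deriv F) Ω := hF.deriv hΩ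
  have hev1 : ∀ᶠ w in 𝓝 w₀, deriv F w ≠ 0 :=
    (hdo.differentiableAt (hΩ.mem_nhds hw₀)).continuousAt.eventually_ne hd
  have hev : ∀ᶠ u in 𝓝 (F w₀), (F (ψ u) = u ∧ DifferentiableAt ℂ ψ u) ∧
      (ψ u ∈ Ω ∧ ψ u ∈ U) ∧ deriv F (ψ u) ≠ 0 :=
    (hright.and hdiff).and (((hcont.eventually (hΩ.mem_nhds hw₀)).and
      (hcont.eventually (hU.mem_nhds hwU))).and (hcont.eventually hev1))
  obtain ⟨ρ, hρ, hball⟩ := Metric.eventually_nhds_iff_ball.1 hev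
  refine ⟨ρ, hρ, ψ, fun u hu => (hball u hu).1.2.differentiableWithinAt, fun u hu => ?_⟩
  obtain ⟨⟨h1, -⟩, ⟨h2, h3⟩, h4⟩ := hball u hu
  exact ⟨h2, h3, h4, h1⟩

/-- the local functions -/
theorem local_fn (h1 : S_CONST) {H : ℂ → ℂ} {a p : ℕ → ℂ} (ha : Summable fun j => ‖a j‖)
    (hap : ∀ᵐ z : ℂ, (Summable fun j => ‖a j / (z - p j)‖) ∧ H z = ∑' j, a j / (z - p j))
    {F : ℂ → ℂ} {Ω : Set ℂ} (hΩ : IsOpen Ω) (hF : DifferentiableOn ℂ F Ω)
    {y : ℂ} {R : ℝ} {k : ℂ → ℂ} (hk : DifferentiableOn ℂ k (ball y R))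
    (hk0 : ∀ w ∈ ball y R, k w ≠ 0) {t : ℝ} (ht : t ≠ 0)
    (hP : ∀ᵐ w : ℂ, (w ∈ ball y R → H w = (t : ℂ) * k w) ∧
      ∃ b : ℝ, (H w ≠ 0 → 0 < b) ∧ H w = (b : ℂ) * deriv F w ^ 2 * H (F w))
    {w₀ : ℂ} (hw₀ : w₀ ∈ Ω) (hd : deriv F w₀ ≠ 0) (hwU : w₀ ∈ ball y R) :
    ∃ ρ > (0 : ℝ), ∃ g : ℂ → ℂ, DifferentiableOn ℂ g (ball (F w₀) ρ) ∧
      (∀ z ∈ ball (F w₀) ρ, g z ≠ 0) ∧ ∀ᵐ z : ℂ, z ∈ ball (F w₀) ρ → H z = g z := by
  obtain ⟨ρ, hρ, ψ, hψd, hψ⟩ := local_inv hΩ hF hw₀ hd isOpen_ball hwU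
  have hdo : DifferentiableOn ℂ (deriv F) Ω := hF.deriv hΩ
  -- the local function
  have hkd : DifferentiableOn ℂ (fun u => k (ψ u) / deriv F (ψ u) ^ 2) (ball (F w₀) ρ) := by
    apply DifferentiableOn.div
    · exact hk.comp hψd (fun u hu => (hψ u hu).2.1)
    · exact (hdo.comp hψd (fun u hu => (hψ u hu).1)).pow 2
    · exact fun u hu => pow_ne_zero _ (hψ u hu).2.2.1
  have hkne : ∀ u ∈ ball (F w₀) ρ, k (ψ u) / deriv F (ψ u) ^ 2 ≠ 0 := fun u hu =>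
    div_ne_zero (hk0 _ (hψ u hu).2.1) (pow_ne_zero _ (hψ u hu).2.2.1)
  -- a.e. `u` has a good preimage
  have hae : ∀ᵐ u : ℂ, u ∈ ball (F w₀) ρ → ∃ s : ℝ, s ≠ 0 ∧
      H u = (s : ℂ) * (k (ψ u) / deriv F (ψ u) ^ 2) := by
    set Bad : Set ℂ := {w : ℂ | ¬ ((w ∈ ball y R → H w = (t : ℂ) * k w) ∧
      ∃ b : ℝ, (H w ≠ 0 → 0 < b) ∧ H w = (b : ℂ) * deriv F w ^ 2 * H (F w))} with hBad
    have hB0 : volume (Bad ∩ Ω) = 0 := measure_mono_null inter_subset_left hP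
    have hFR : DifferentiableOn ℝ F (Bad ∩ Ω) :=
      (hF.restrictScalars ℝ).mono inter_subset_right
    have himg : volume (F '' (Bad ∩ Ω)) = 0 :=
      addHaar_image_eq_zero_of_differentiableOn_of_addHaar_eq_zero volume hFR hB0
    refine measure_mono_null ?_ himg
    intro u hu
    have hu' : ¬ (u ∈ ball (F w₀) ρ → ∃ s : ℝ, s ≠ 0 ∧
      H u = (s : ℂ) * (k (ψ u) / deriv F (ψ u) ^ 2)) := hu
    push Not at hu'
    obtain ⟨hub, hno⟩ := hu'
    obtain ⟨q1, q2, q3, q4⟩ := hψ u hub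
    refine ⟨ψ u, ⟨?_, q1⟩, q4⟩
    rintro ⟨r1, b, r2, r3⟩
    have r4 := r1 q2
    have hne : H (ψ u) ≠ 0 := by
      rw [r4]
      exact mul_ne_zero (Complex.ofReal_ne_zero.2 ht) (hk0 _ q2)
    have hb := r2 hne
    have hbC : (b : ℂ) ≠ 0 := Complex.ofReal_ne_zero.2 hb.ne'
    rw [q4] at r3
    refine hno (t / b) (div_ne_zero ht hb.ne') ?_
    have hD2 : deriv F (ψ u) ^ 2 ≠ 0 := pow_ne_zero _ q3
    rw [r4] at r3
    push_cast
    field_simp
    rw [r3]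
    ring
  -- constant multiple
  obtain ⟨t₂, ht₂⟩ := h1 H a p ha hap (F w₀) ρ (fun u => k (ψ u) / deriv F (ψ u) ^ 2) hρ hkd hkne (by
    filter_upwards [hae] with u hu hb
    obtain ⟨s, -, hs⟩ := hu hb
    exact ⟨s, hs⟩)
  have ht₂0 : t₂ ≠ 0 := by
    obtain ⟨u, hub, hu1, hu2⟩ := (MeasureTheory.Measure.dense_of_ae (hae.and ht₂)).inter_open_nonempty
      (ball (F w₀) ρ) isOpen_ball ⟨F w₀, mem_ball_self hρ⟩
    obtain ⟨s, hs, hHs⟩ := hu1 hub
    have h3 := hu2 hub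
    intro h0
    rw [h0, Complex.ofReal_zero, zero_mul] at h3
    rw [h3] at hHs
    exact mul_ne_zero (Complex.ofReal_ne_zero.2 hs) (hkne u hub) hHs.symm
  refine ⟨ρ, hρ, fun u => (t₂ : ℂ) * (k (ψ u) / deriv F (ψ u) ^ 2), hkd.const_mul _, ?_, ht₂⟩
  intro z hz
  exact mul_ne_zero (Complex.ofReal_ne_zero.2 ht₂0) (hkne z hz)

theorem t_PROP (h1 : S_CONST) (_h2 : S_CHO) : S_PROP := by
  classical
  intro d x H K hd hx hL hFix hE hHol
  obtain ⟨y, R, k, hR, hk, hk0, hHk⟩ := hHol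
  obtain ⟨a, p, ha, hap⟩ := hFix.ato
  -- `H = t k` on the ball
  obtain ⟨t, ht⟩ := h1 H a p ha hap y R k hR hk hk0 (by
    filter_upwards [hHk] with w hw hb
    obtain ⟨s, -, hs⟩ := hw hb
    exact ⟨s, hs⟩)
  have ht0 : t ≠ 0 := by
    obtain ⟨u, hub, hu1, hu2⟩ := (MeasureTheory.Measure.dense_of_ae (hHk.and ht)).inter_open_nonempty
      (ball y R) isOpen_ball ⟨y, mem_ball_self hR⟩
    obtain ⟨s, hs, hHs⟩ := hu1 hub
    have h3 := hu2 hub
    intro h0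
    rw [h0, Complex.ofReal_zero, zero_mul] at h3
    rw [h3] at hHs
    exact mul_ne_zero (Complex.ofReal_ne_zero.2 hs.ne') (hk0 u hub) hHs.symm
  obtain ⟨N, hN⟩ := onto hL y R hR
  have hon : ∀ a : ℂ × ℂ, a ≠ 0 → ∃ w : ℂ, cr ((hF x)^[N] (w, 1)) a = 0 := fun a ha => by
    obtain ⟨w, -, hw⟩ := hN a ha
    exact ⟨w, hw⟩
  -- polynomials
  have hpoly : ∀ n : ℕ, ∃ A B : ℂ[X], (∀ ζ : ℂ, A.eval ζ = ((hF x)^[n] (ζ, 1)).1) ∧
      (∀ ζ : ℂ, B.eval ζ = ((hF x)^[n] (ζ, 1)).2) := by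
    intro n
    obtain ⟨A, B, -, -, hA, hB, -, -⟩ := POLY d x n (by omega)
    exact ⟨A, B, hA, hB⟩
  choose A B hA hB using hpoly
  set F : ℂ → ℂ := fun z => (A N).eval z / (B N).eval z with hFdef
  set Ω : Set ℂ := {z : ℂ | (B N).eval z ≠ 0} with hΩdef
  have hΩ : IsOpen Ω := isOpen_ne_fun (B N).continuous continuous_const
  have hFd : DifferentiableOn ℂ F Ω := by
    intro z hz
    exact ((A N).differentiable.differentiableAt.div (B N).differentiable.differentiableAt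
      hz).differentiableWithinAt
  have hderivF : ∀ z ∈ Ω, deriv F z =
      (derivative (A N) * B N - A N * derivative (B N)).eval z / (B N).eval z ^ 2 := by
    intro z hz
    have h := ((A N).hasDerivAt z).div ((B N).hasDerivAt z) hz
    rw [show F = (fun z => (A N).eval z) / (fun z => (B N).eval z) from rfl, h.deriv]
    simp only [eval_sub, eval_mul]
  -- the good set of points which are not mapped to infinity
  set G : Set ℂ := {z : ℂ | ∀ j ≤ N, (B j).eval z ≠ 0} with hGdef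
  have hGfin : (Gᶜ).Finite := by
    have hsub : Gᶜ ⊆ ⋃ j ∈ Set.Iic N, {z : ℂ | (B j).IsRoot z} := by
      intro z hz
      rw [hGdef, mem_compl_iff, mem_ofPred_eq] at hz
      push Not at hz
      obtain ⟨j, hj, h0⟩ := hz
      exact mem_biUnion (show j ∈ Set.Iic N from hj) h0
    refine Set.Finite.subset ((Set.finite_Iic N).biUnion fun j hj => ?_) hsub
    exact (B j).finite_setOfPred_isRoot (den_ne hx hon hj (hB j))
  have hGopen : IsOpen G := by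
    rw [← compl_compl G]
    exact hGfin.isClosed.isOpen_compl
  have hGae : ∀ᵐ z : ℂ, z ∈ G := hGfin.measure_zero _
  have hGF : ∀ z ∈ G, (pf x)^[N] z = F z := by
    intro z hz
    rw [pf_iter x N z (fun j hj => by rw [← hB j]; exact hz j hj), ← hA N, ← hB N]
  have hP : ∀ᵐ w : ℂ, (w ∈ ball y R → H w = (t : ℂ) * k w) ∧
      ∃ b : ℝ, (H w ≠ 0 → 0 < b) ∧ H w = (b : ℂ) * deriv F w ^ 2 * H (F w) := by
    filter_upwards [ht, hE.1 N, hGae] with w h3 h4 h5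
    refine ⟨h3, ?_⟩
    obtain ⟨b, -, hb, -, hb2⟩ := h4
    refine ⟨b, hb, ?_⟩
    have hev : (pf x)^[N] =ᶠ[𝓝 w] F := by
      filter_upwards [hGopen.mem_nhds h5] with z hz
      exact hGF z hz
    rw [hev.deriv_eq, hGF w h5] at hb2
    exact hb2
  -- the exceptional set
  set D := derivative (A N) * B N - A N * derivative (B N) with hD
  have hD0 : D ≠ 0 := wronsk_ne hx hon (hA N) (hB N)
  obtain ⟨h, hh1, hh2, hh3⟩ := glue H (D.roots.toFinset.image F) (by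
    intro τ hτ
    obtain ⟨w₀, hw₀, hcr⟩ := hN (τ, 1) (fun h => by simpa using congrArg Prod.snd h)
    rw [show cr ((hF x)^[N] (w₀, 1)) (τ, 1) = (A N).eval w₀ - (B N).eval w₀ * τ by
      rw [hA, hB]; simp [cr]] at hcr
    have hBw : w₀ ∈ Ω := by
      intro h0
      rw [h0, zero_mul, sub_zero] at hcr
      rw [hA] at hcr
      rw [hB] at h0
      exact hx.iter_ne N (p := (w₀, 1)) (fun h => by simpa using congrArg Prod.snd h)
        (Prod.ext hcr h0)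
    have hFw : F w₀ = τ := by
      rw [hFdef]
      simp only
      rw [div_eq_iff hBw]
      linear_combination hcr
    have hdF : deriv F w₀ ≠ 0 := by
      rw [hderivF w₀ hBw]
      refine div_ne_zero ?_ (pow_ne_zero _ hBw)
      intro h0
      apply hτ
      rw [Finset.mem_image]
      exact ⟨w₀, by rw [Multiset.mem_toFinset, mem_roots hD0]; exact h0, hFw⟩
    have := local_fn h1 ha hap hΩ hFd hk hk0 ht0 hP hBw hdF hw₀
    rw [hFw] at this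
    exact this)
  exact ⟨_, h, hh1, hh2, hh3⟩

end Pool.Agent.H766.HY211
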