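import Mathlib
import Pool.Agent.H211.HY.Stm3
import Pool.Graph.R_seed8.H790R3.RB.Basic
import Pool.Graph.R_seed8.H790R3.RB.TWR
import Pool.Agent.H766.HY211.PROP

/-! DEEPJ: orbits outside the Julia set stay away from it (project HY of helper211). -/

set_option autoImplicit false

open Topology Filter Metric Set MeasureTheory Polynomial

namespace Pool.Agent.H766.HY211.DJ

open Pool.Agent.H790R3.RB Pool.Agent.H211.HY

theorem fin_pos {ι : Type} [Finite ι] (f : ι → ℝ) (h : ∀ i, 0 < f i) : ∃ ε > (0 : ℝ), ∀ i, ε ≤ f i := by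
  rcases isEmpty_or_nonempty ι with h0 | h0
  · exact ⟨1, one_pos, fun i => (h0.false i).elim⟩
  · obtain ⟨i, hi⟩ := Finite.exists_min f
    exact ⟨f i, h i, hi⟩

theorem iot_ne (τ : Bool) (w : ℂ) : iot τ w ≠ 0 := by
  cases τ
  · intro h; simpa [iot] using congrArg Prod.fst h
  · intro h; simpa [iot] using congrArg Prod.snd h

theorem cr_sym {p q : ℂ × ℂ} (h : cr p q = 0) : cr q p = 0 := by
  rw [cr_comm, h, neg_zero]

theorem chart (w : ℂ × ℂ) (hw : w ≠ 0) : ∃ (τ : Bool) (y : ℂ), ‖y‖ ≤ 1 ∧ cr w (iot τ y) = 0 := by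
  by_cases h : ‖w.1‖ ≤ ‖w.2‖
  · have h2 : w.2 ≠ 0 := by
      intro h2
      rw [h2, norm_zero] at h
      exact hw (Prod.ext (norm_eq_zero.1 (le_antisymm h (norm_nonneg _))) h2)
    refine ⟨true, w.1 / w.2, ?_, ?_⟩
    · rw [norm_div]
      exact div_le_one_of_le₀ h (norm_nonneg _)
    · simp only [iot, cr, if_true]
      field_simp
      ring
  · push Not at h
    have h1 : w.1 ≠ 0 := by
      intro h1
      rw [h1, norm_zero] at h
      exact absurd h (not_lt.2 (norm_nonneg _))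
    refine ⟨false, w.2 / w.1, ?_, ?_⟩
    · rw [norm_div]
      exact div_le_one_of_le₀ h.le (norm_nonneg _)
    · simp only [iot, cr, Bool.false_eq_true, if_false]
      field_simp
      ring

theorem near2 (τ : Bool) (y : ℂ) (hy : ‖y‖ ≤ 1) (R : ℝ) (hR : 0 < R) (hR1 : R ≤ 1) (q : ℂ × ℂ)
    (hq : q ≠ 0) (h : cho (iot τ y) q < R / 6) : ∃ u ∈ ball y R, cr (iot τ u) q = 0 := by
  have hle : R / 6 ≤ R / ((1 + ‖y‖) * (R + 1 + ‖y‖)) := by
    have hy0 := norm_nonneg y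
    apply div_le_div_of_nonneg_left hR.le (by positivity)
    nlinarith
  cases τ
  · have hq' : ((q.2, q.1) : ℂ × ℂ) ≠ 0 := fun h0 =>
      hq (Prod.ext (congrArg Prod.snd h0) (congrArg Prod.fst h0))
    have hc : cho (iot false y) q = cho (y, 1) (q.2, q.1) := by
      unfold cho
      have e1 : ‖cr (iot false y) q‖ = ‖cr (y, 1) (q.2, q.1)‖ := by
        rw [← norm_neg]
        congr 1
        simp only [cr, iot, Bool.false_eq_true, if_false]
        ring
      have e2 : N2 (iot false y) = N2 (y, 1) := by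
        simp only [N2, iot, Bool.false_eq_true, if_false]
        ring
      have e3 : N2 q = N2 (q.2, q.1) := by
        simp only [N2]
        ring
      rw [e1, e2, e3]
    rw [hc] at h
    have h1 := near y R hR (q.2, q.1) hq' (lt_of_lt_of_le h hle)
    simp only at h1
    have hq2 : q.1 ≠ 0 := by
      intro h2
      rw [h2] at h1
      simp at h1
      linarith [norm_nonneg q.2]
    have hq20 : 0 < ‖q.1‖ := norm_pos_iff.2 hq2
    refine ⟨q.2 / q.1, ?_, ?_⟩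
    · rw [mem_ball, dist_eq_norm]
      have h3 : q.2 / q.1 - y = (q.2 - y * q.1) / q.1 := by field_simp
      rw [h3, norm_div, div_lt_iff₀ hq20]
      exact h1
    · simp only [cr, iot, Bool.false_eq_true, if_false]
      field_simp
      ring
  · have h1 := near y R hR q hq (lt_of_lt_of_le h hle)
    have hq2 : q.2 ≠ 0 := by
      intro h2
      rw [h2] at h1
      simp at h1
      linarith [norm_nonneg q.1]
    have hq20 : 0 < ‖q.2‖ := norm_pos_iff.2 hq2
    refine ⟨q.1 / q.2, ?_, ?_⟩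
    · rw [mem_ball, dist_eq_norm]
      have h3 : q.1 / q.2 - y = (q.1 - y * q.2) / q.2 := by field_simp
      rw [h3, norm_div, div_lt_iff₀ hq20]
      exact h1
    · simp only [cr, iot, if_true]
      field_simp
      ring

theorem N2_pos {p : ℂ × ℂ} (hp : p ≠ 0) : 0 < N2 p := by
  unfold N2
  by_cases h1 : p.1 = 0
  · have h2 : p.2 ≠ 0 := fun h2 => hp (Prod.ext h1 h2)
    have := norm_pos_iff.mpr h2
    positivity
  · have := norm_pos_iff.mpr h1
    positivity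

theorem N2_smul (a : ℂ) (p : ℂ × ℂ) : N2 (a • p) = ‖a‖ ^ 2 * N2 p := by
  simp only [N2, Prod.smul_fst, Prod.smul_snd, smul_eq_mul, norm_mul, mul_pow]
  ring

theorem cho_par (hC : S_CHO) {p p' : ℂ × ℂ} (hp : p ≠ 0) (hp' : p' ≠ 0) (h : cr p p' = 0)
    (q : ℂ × ℂ) : cho p q = cho p' q := by
  obtain ⟨a, ha, rfl⟩ := (cr_eq_zero_iff hp hp').1 h
  have := hC.2.2.2.1 p' q a 1 ha one_ne_zero
  rw [one_smul] at this
  exact this

theorem N2_cont : Continuous N2 := by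
  unfold N2
  fun_prop

theorem cr_cont (p : ℂ × ℂ) : Continuous (fun q => cr p q) := by
  unfold cr
  fun_prop

theorem sph_compact : IsCompact {p : ℂ × ℂ | N2 p = 1} := by
  apply Metric.isCompact_of_isClosed_isBounded
  · exact isClosed_eq N2_cont continuous_const
  · refine (Metric.isBounded_closedBall (x := (0 : ℂ × ℂ)) (r := 1)).subset ?_
    intro p hp
    have hp' : N2 p = 1 := hp
    rw [mem_closedBall, dist_zero_right, Prod.norm_def]
    unfold N2 at hp'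
    apply max_le
    · nlinarith [sq_nonneg ‖p.2‖, norm_nonneg p.1, norm_nonneg p.2]
    · nlinarith [sq_nonneg ‖p.1‖, norm_nonneg p.1, norm_nonneg p.2]

theorem exists_unit {p : ℂ × ℂ} (hp : p ≠ 0) : ∃ a : ℂ, a ≠ 0 ∧ N2 (a • p) = 1 := by
  have h := N2_pos hp
  have hs : 0 < Real.sqrt (N2 p) := Real.sqrt_pos.2 h
  refine ⟨(((Real.sqrt (N2 p))⁻¹ : ℝ) : ℂ), ?_, ?_⟩
  · rw [Ne, Complex.ofReal_eq_zero]
    positivity
  · rw [N2_smul, Complex.norm_real, Real.norm_eq_abs, abs_of_pos (by positivity), inv_pow,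
      Real.sq_sqrt h.le]
    field_simp

theorem hF_cont {d : ℕ} (x : CV d) : Continuous (hF x) := by
  have h := (hF_iter_continuous d 1).comp (continuous_const.prodMk continuous_id : Continuous
    (fun p : ℂ × ℂ => (x, p)))
  simpa [Function.comp_def] using h

theorem cho_nn (hC : S_CHO) (p q : ℂ × ℂ) : 0 ≤ cho p q := (hC.2.1 p q).2.1

theorem wr_prod {d k : ℕ} {x : CV d} {c : Fin k → ℂ} {m : Fin k → ℕ} (hd : 2 ≤ d)
    (hfac : Fac x k c m) (p : ℂ × ℂ) : wr x p = wr x (1, 0) * ∏ i, cr p (c i, 1) ^ m i := by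
  have hW := (WR d x hd).1
  by_cases h2 : p.2 = 0
  · have h3 : p = p.1 • ((1, 0) : ℂ × ℂ) := by
      apply Prod.ext
      · simp
      · simpa using h2
    have h4 : ∀ i, cr p (c i, 1) = p.1 := by
      intro i
      simp [cr, h2]
    simp only [h4]
    rw [Finset.prod_pow_eq_pow_sum, hfac.deg]
    conv_lhs => rw [h3, hW]
    ring
  · have h3 : p = p.2 • ((p.1 / p.2, 1) : ℂ × ℂ) := by
      apply Prod.ext
      · simp only [Prod.smul_fst, smul_eq_mul]; field_simp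
      · simp
    have h4 : ∀ i, cr p (c i, 1) = p.2 * (p.1 / p.2 - c i) := by
      intro i
      simp only [cr]
      field_simp
    conv_lhs => rw [h3, hW, hfac.fac]
    simp only [h4, mul_pow]
    rw [Finset.prod_mul_distrib, Finset.prod_pow_eq_pow_sum, hfac.deg]
    ring

/-- (f1) -/
theorem sd_le (hC : S_CHO) {d k : ℕ} {x : CV d} {c : Fin k → ℂ} {m : Fin k → ℕ} (hd : 2 ≤ d)
    (hx : ND x) (hfac : Fac x k c m) : ∃ C₁ > (0 : ℝ), ∀ p : ℂ × ℂ, p ≠ 0 → ∀ i,
      sd x p ≤ C₁ * cho p (c i, 1) ^ m i := by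
  classical
  obtain ⟨m0, hm0, hm⟩ : ∃ m0 : ℝ, 0 < m0 ∧ ∀ p : ℂ × ℂ, N2 p = 1 → m0 ≤ N2 (hF x p) := by
    obtain ⟨p0, hp0, hmin⟩ := sph_compact.exists_isMinOn ⟨(1, 0), by simp [N2]⟩
      (N2_cont.comp (hF_cont x)).continuousOn
    have hp0' : p0 ≠ 0 := by
      rintro rfl
      have : N2 (0 : ℂ × ℂ) = 1 := hp0
      simp [N2] at this
    exact ⟨N2 (hF x p0), N2_pos fun h => hp0' (hx _ h), fun p hp => hmin hp⟩
  have hd0 : (0 : ℝ) < d := by exact_mod_cast (by omega : 0 < d)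
  have hS0 : ∀ i, 0 < Real.sqrt (N2 (c i, 1)) := fun i => Real.sqrt_pos.2 (N2_pos
    (fun h => by simpa using congrArg Prod.snd h))
  set P : ℝ := ∏ i, Real.sqrt (N2 (c i, 1)) ^ m i with hP
  have hP0 : 0 < P := Finset.prod_pos fun i _ => pow_pos (hS0 i) _
  refine ⟨‖wr x (1, 0)‖ * P / (d * m0) + 1, by positivity, ?_⟩
  -- reduction to unit vectors
  have hunit : ∀ p : ℂ × ℂ, N2 p = 1 → ∀ i, sd x p ≤
      (‖wr x (1, 0)‖ * P / (d * m0) + 1) * cho p (c i, 1) ^ m i := by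
    intro p hp i
    have hcr : ∀ i, ‖cr p (c i, 1)‖ = cho p (c i, 1) * Real.sqrt (N2 (c i, 1)) := by
      intro i
      unfold cho
      rw [hp, one_mul, div_mul_cancel₀ _ (hS0 i).ne']
    have hprod : ‖∏ i, cr p (c i, 1) ^ m i‖ ≤ cho p (c i, 1) ^ m i * P := by
      rw [norm_prod]
      simp only [norm_pow, hcr, mul_pow]
      rw [Finset.prod_mul_distrib]
      refine mul_le_mul_of_nonneg_right ?_ hP0.le
      rw [← Finset.mul_prod_erase Finset.univ _ (Finset.mem_univ i)]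
      refine mul_le_of_le_one_right (pow_nonneg (cho_nn hC _ _) _) ?_
      refine Finset.prod_le_one (fun j _ => pow_nonneg (cho_nn hC _ _) _) (fun j _ => ?_)
      exact pow_le_one₀ (cho_nn hC _ _) (hC.2.1 _ _).2.2
    have hwr : ‖wr x p‖ ≤ ‖wr x (1, 0)‖ * (cho p (c i, 1) ^ m i * P) := by
      rw [wr_prod hd hfac p, norm_mul]
      exact mul_le_mul_of_nonneg_left hprod (norm_nonneg _)
    unfold sd
    rw [hp, mul_one]
    have h1 : ‖wr x p‖ / (d * N2 (hF x p)) ≤ ‖wr x p‖ / (d * m0) := by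
      apply div_le_div_of_nonneg_left (norm_nonneg _) (by positivity)
      exact mul_le_mul_of_nonneg_left (hm p hp) hd0.le
    have h2 : ‖wr x p‖ / (d * m0) ≤ ‖wr x (1, 0)‖ * (cho p (c i, 1) ^ m i * P) / (d * m0) :=
      div_le_div_of_nonneg_right hwr (by positivity)
    have h3 : 0 ≤ cho p (c i, 1) ^ m i := pow_nonneg (cho_nn hC _ _) _
    calc ‖wr x p‖ / (d * N2 (hF x p)) ≤ ‖wr x (1, 0)‖ * (cho p (c i, 1) ^ m i * P) / (d * m0) :=
          h1.trans h2
      _ = (‖wr x (1, 0)‖ * P / (d * m0)) * cho p (c i, 1) ^ m i := by ring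
      _ ≤ _ := by nlinarith
  intro p hp i
  obtain ⟨a, ha, hap⟩ := exists_unit hp
  have h1 := hunit (a • p) hap i
  have h2 : sd x (a • p) = sd x p := by
    have := (hC.2.2.2.2 d x hd hx).2.1 1 p a ha hp
    simpa [sdn] using this
  have h3 : cho (a • p) (c i, 1) = cho p (c i, 1) := by
    have := hC.2.2.2.1 p (c i, 1) a 1 ha one_ne_zero
    rwa [one_smul] at this
  rw [h2, h3] at h1
  exact h1

/-- distance from the Julia set -/
def Far {d : ℕ} (x : CV d) (η : ℝ) (z : ℂ × ℂ) : Prop := ∀ q : ℂ × ℂ, q ≠ 0 → Jul x q → η < cho z q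

theorem far_step (hC : S_CHO) (hJ : S_JUL) {d : ℕ} {x : CV d} (hd : 2 ≤ d) (hx : ND x) (η : ℝ)
    (hη : 0 < η) : ∃ δ > (0 : ℝ), ∀ z : ℂ × ℂ, z ≠ 0 → Far x η z → Far x δ (hF x z) := by
  by_contra hcon
  push Not at hcon
  have h1 : ∀ n : ℕ, ∃ z q : ℂ × ℂ, N2 z = 1 ∧ Far x η z ∧ q ≠ 0 ∧ Jul x q ∧
      cho (hF x z) q ≤ 1 / ((n : ℝ) + 1) := by
    intro n
    obtain ⟨z, hz, hfar, hnot⟩ := hcon (1 / ((n : ℝ) + 1)) (by positivity)
    unfold Far at hnot
    push Not at hnot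
    obtain ⟨q, hq, hJq, hle⟩ := hnot
    obtain ⟨a, ha, hau⟩ := exists_unit hz
    refine ⟨a • z, q, hau, ?_, hq, hJq, ?_⟩
    · intro r hr hJr
      have := hC.2.2.2.1 z r a 1 ha one_ne_zero
      rw [one_smul] at this
      rw [this]
      exact hfar r hr hJr
    · rw [hF_smul]
      have := hC.2.2.2.1 (hF x z) q (a ^ d) 1 (pow_ne_zero _ ha) one_ne_zero
      rw [one_smul] at this
      rw [this]
      exact hle
  choose z q hz hfar hq hJq hle using h1
  obtain ⟨z0, hz0, φ, hφ, hlim⟩ := sph_compact.tendsto_subseq (x := z) (fun n => hz n)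
  have hz0' : N2 z0 = 1 := hz0
  have hz0n : z0 ≠ 0 := by
    rintro rfl
    simp [N2] at hz0'
  have hzn : ∀ n, z n ≠ 0 := by
    intro n h0
    have := hz n
    rw [h0] at this
    simp [N2] at this
  have hcho : Tendsto (fun n => cho z0 (z (φ n))) atTop (𝓝 0) := by
    have h2 : ∀ n, cho z0 (z (φ n)) = ‖cr z0 (z (φ n))‖ := by
      intro n
      unfold cho
      rw [hz0', hz (φ n), mul_one, Real.sqrt_one, div_one]
    simp only [h2]
    have h3 := ((cr_cont z0).norm.tendsto z0).comp hlim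
    rw [cr_self, norm_zero] at h3
    exact h3
  obtain ⟨K, hK⟩ := (hC.2.2.2.2 d x hd hx).2.2.2.2
  have hJ0 : Jul x (hF x z0) := by
    apply (hJ d x hd hx).1 (hF x z0) (fun h => hz0n (hx _ h))
    intro δ hδ
    have e1 : ∀ᶠ n in atTop, K * cho z0 (z (φ n)) < δ / 2 := by
      have := hcho.const_mul K
      rw [mul_zero] at this
      exact this.eventually_lt_const (by positivity)
    have e2 : ∀ᶠ n : ℕ in atTop, 1 / ((φ n : ℝ) + 1) < δ / 2 := by
      have := (tendsto_one_div_add_atTop_nhds_zero_nat (𝕜 := ℝ)).comp hφ.tendsto_atTop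
      exact this.eventually_lt_const (by positivity)
    obtain ⟨n, hn1, hn2⟩ := (e1.and e2).exists
    refine ⟨q (φ n), hq _, ?_, hJq _⟩
    have t1 := hC.1 (hF x z0) (hF x (z (φ n))) (q (φ n)) (fun h => hz0n (hx _ h))
      (fun h => hzn _ (hx _ h)) (hq _)
    have t2 := hK z0 (z (φ n)) hz0n (hzn _)
    have t3 := hle (φ n)
    linarith
  have hJz : Jul x z0 := ((hJ d x hd hx).2.1 z0 hz0n).1 hJ0
  obtain ⟨n, hn⟩ := (hcho.eventually_lt_const hη).exists
  have h5 := hfar (φ n) z0 hz0n hJz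
  rw [(hC.2.1 (z (φ n)) z0).1] at h5
  linarith

theorem far_iter (hC : S_CHO) (hJ : S_JUL) {d : ℕ} {x : CV d} (hd : 2 ≤ d) (hx : ND x) (η : ℝ)
    (hη : 0 < η) (n : ℕ) : ∃ δ > (0 : ℝ), ∀ z : ℂ × ℂ, z ≠ 0 → Far x η z →
      Far x δ ((hF x)^[n] z) := by
  induction n with
  | zero => exact ⟨η, hη, fun z _ h => h⟩
  | succ n ih =>
    obtain ⟨δ, hδ, h⟩ := ih
    obtain ⟨δ', hδ', h'⟩ := far_step hC hJ hd hx δ hδ
    refine ⟨δ', hδ', fun z hz hf => ?_⟩
    rw [Function.iterate_succ_apply']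
    exact h' _ (hx.iter_ne n hz) (h z hz hf)

theorem far_all (hC : S_CHO) (hJ : S_JUL) {d : ℕ} {x : CV d} (hd : 2 ≤ d) (hx : ND x) (η : ℝ)
    (hη : 0 < η) (T : ℕ) : ∃ δ > (0 : ℝ), δ ≤ 1 ∧ ∀ n < T, ∀ z : ℂ × ℂ, z ≠ 0 → Far x η z →
      Far x δ ((hF x)^[n] z) := by
  choose δ hδ h using far_iter hC hJ hd hx η hη
  obtain ⟨ε, hε, hle⟩ := fin_pos (fun i : Fin T => δ i) (fun i => hδ i)
  refine ⟨min ε 1, lt_min hε one_pos, min_le_right _ _, fun n hn z hz hf q hq hJq => ?_⟩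
  exact lt_of_le_of_lt ((min_le_left _ _).trans (hle ⟨n, hn⟩)) (h n z hz hf q hq hJq)

theorem jul_iter (hJ : S_JUL) {d : ℕ} {x : CV d} (hd : 2 ≤ d) (hx : ND x) (n : ℕ) (p : ℂ × ℂ)
    (hp : p ≠ 0) : Jul x ((hF x)^[n] p) ↔ Jul x p := by
  induction n with
  | zero => rfl
  | succ n ih =>
    rw [Function.iterate_succ_apply', (hJ d x hd hx).2.1 _ (hx.iter_ne n hp), ih]

/-- a branch through `z` which touches the Julia set -/
theorem branch_contra (hC : S_CHO) (hJ : S_JUL) {d : ℕ} {x : CV d} (hd : 2 ≤ d) (hx : ND x)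
    {η : ℝ} {z : ℂ × ℂ} (hz : z ≠ 0) (hfar : Far x η z) {n : ℕ} {τ : Bool} {y : ℂ} {R : ℝ}
    (hR : 0 < R) {g : ℂ → ℂ × ℂ} (hg : BrT x n τ y R g) (hgz : cr (g y) z = 0) {u : ℂ}
    (hu : u ∈ ball y (R / 8)) (hS : Jul x (g u) → cho (g u) (g y) < η) {q : ℂ × ℂ} (hq : q ≠ 0)
    (hJq : Jul x q) (hcr : cr (iot τ u) q = 0) : False := by
  have hu' : u ∈ ball y R := ball_subset_ball (by linarith) hu
  obtain ⟨hgu, hgc⟩ := hg.2 u hu'
  obtain ⟨hgy, -⟩ := hg.2 y (mem_ball_self hR)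
  have h1 : cr ((hF x)^[n] (g u)) q = 0 := cr_trans (iot_ne τ u) hgc hcr
  have h2 : Jul x ((hF x)^[n] (g u)) :=
    (hJ d x hd hx).2.2.1 q _ hq (hx.iter_ne n hgu) (cr_sym h1) hJq
  have h3 : Jul x (g u) := (jul_iter hJ hd hx n _ hgu).1 h2
  have h4 := hS h3
  have h5 := hfar (g u) hgu h3
  rw [← cho_par hC hgy hz hgz (g u), (hC.2.1 (g y) (g u)).1] at h5
  linarith

theorem t_DEEPJ (hC : S_CHO) (hJ : S_JUL) (hSHJ : S_SHJ) (hHIT : S_HITL) : S_DEEPJ := by
  intro d k x c m hd hx hce hnrm hfac hleo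
  obtain ⟨R₁s, hR₁s, hS⟩ := hSHJ d x hd hx hce hleo
  obtain ⟨μ, hμ, c₀, hc₀, hexp, hH⟩ := hHIT d k x c m hd hx hce hnrm hfac hleo
  obtain ⟨C₁, hC₁, hsd⟩ := sd_le hC hd hx hfac
  -- the rates
  have hμ0 : 0 < μ := by linarith
  obtain ⟨θ, hθ1, hθμ, hθ2⟩ : ∃ θ : ℝ, 1 < θ ∧ θ < μ ∧ θ * θ = μ := by
    have h1 : 1 < Real.sqrt μ := by
      rw [Real.lt_sqrt (by norm_num)]
      simpa using hμ
    have h2 : Real.sqrt μ * Real.sqrt μ = μ := Real.mul_self_sqrt hμ0.le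
    refine ⟨Real.sqrt μ, h1, ?_, h2⟩
    nlinarith
  have hθ0 : 0 < θ := by linarith
  obtain ⟨ν, hν0, hν1, hν2⟩ : ∃ ν : ℝ, 0 < ν ∧ ν < 1 ∧ ν * ν = θ / μ := by
    have h1 : 0 < θ / μ := by positivity
    have h2 : θ / μ < 1 := (div_lt_one hμ0).2 hθμ
    refine ⟨Real.sqrt (θ / μ), Real.sqrt_pos.2 h1, ?_, Real.mul_self_sqrt h1.le⟩
    rw [Real.sqrt_lt' one_pos]
    simpa using h2
  obtain ⟨C, hCpos, R₁h, hR₁h, hhit⟩ := hH θ hθ1 hθμ
  have hrate : ∀ j : ℕ, θ ^ j / μ ^ j = ν ^ j * ν ^ j := by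
    intro j
    rw [← mul_pow, hν2, div_pow]
  -- points
  have hci : ∀ i, ((c i, 1) : ℂ × ℂ) ≠ 0 := fun i h => by simpa using congrArg Prod.snd h
  have hwc : ∀ i, wr x (c i, 1) = 0 := by
    intro i
    rw [hfac.fac, Finset.prod_eq_zero (Finset.mem_univ i), mul_zero]
    rw [sub_self, zero_pow (by have := hfac.pos i; omega)]
  have hJc : ∀ i, Jul x (c i, 1) := fun i => (hJ d x hd hx).2.2.2.2 hce _ (hci i) (hwc i)
  have hv0 : ∀ i (j : ℕ), (hF x)^[j] (hF x (c i, 1)) ≠ 0 := fun i j =>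
    hx.iter_ne j (fun h => hci i (hx _ h))
  -- recursion of the derivatives
  have hrec : ∀ i l (j : ℕ), c₀ * μ ^ (j + 1) ≤ sdn x j (hF x (c i, 1)) *
      (C₁ * cho ((hF x)^[j] (hF x (c i, 1))) (c l, 1) ^ m l) := by
    intro i l j
    refine (hexp i (j + 1)).trans ?_
    unfold sdn
    rw [Finset.prod_range_succ]
    refine mul_le_mul_of_nonneg_left (hsd _ (hv0 i j) l) ?_
    apply Finset.prod_nonneg
    intro j' _
    unfold sd
    have n1 : ∀ r : ℂ × ℂ, 0 ≤ N2 r := fun r => by unfold N2; positivity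
    exact div_nonneg (mul_nonneg (norm_nonneg _) (n1 _)) (mul_nonneg (Nat.cast_nonneg _) (n1 _))
  have hsdn0 : ∀ i (j : ℕ), 0 < sdn x j (hF x (c i, 1)) := fun i j =>
    lt_of_lt_of_le (by positivity) (hexp i j)
  -- `L` bounds the local degrees
  obtain ⟨L, hL⟩ : ∃ L : ℕ, ∀ i, m i + 1 ≤ L := by
    refine ⟨∑ i, m i + 1, fun i => ?_⟩
    have := Finset.single_le_sum (f := m) (fun j _ => Nat.zero_le _) (Finset.mem_univ i)
    omega
  -- constants
  set C'' : ℝ := C * C₁ * 3 ^ L / (c₀ * μ) * 64 ^ L with hC''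
  have hC''0 : 0 < C'' := by positivity
  obtain ⟨M, hM⟩ : ∃ M : ℕ, ∀ j ≥ M, C'' * ν ^ j ≤ ν := by
    have h1 : Tendsto (fun j : ℕ => C'' * ν ^ j) atTop (𝓝 0) := by
      have := (tendsto_pow_atTop_nhds_zero_of_lt_one hν0.le hν1).const_mul C''
      rwa [mul_zero] at this
    have h2 := h1.eventually_lt_const hν0
    obtain ⟨M, hM⟩ := eventually_atTop.1 h2
    exact ⟨M, fun j hj => (hM j hj).le⟩
  obtain ⟨dM, hdM, hdMle⟩ : ∃ dM > (0 : ℝ), ∀ t : Fin M × Fin k × Fin k,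
      dM ≤ cho ((hF x)^[(t.1 : ℕ)] (hF x (c t.2.1, 1))) (c t.2.2, 1) := by
    apply fin_pos
    rintro ⟨j, i, l⟩
    rcases (cho_nn hC ((hF x)^[(j : ℕ)] (hF x (c i, 1))) (c l, 1)).lt_or_eq with h1 | h1
    · exact h1
    · exfalso
      have h2 := hrec i l j
      have h3 : m l ≠ 0 := by have := hfac.pos l; omega
      rw [← h1, zero_pow h3, mul_zero, mul_zero] at h2
      have : 0 < c₀ * μ ^ ((j : ℕ) + 1) := by positivity
      linarith
  set Rs : ℝ := min (min R₁s R₁h) (min 1 (dM / 4)) with hRs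
  have hRs0 : 0 < Rs := lt_min (lt_min hR₁s hR₁h) (lt_min one_pos (by positivity))
  have hRs1 : Rs ≤ R₁s := (min_le_left _ _).trans (min_le_left _ _)
  have hRs2 : Rs ≤ R₁h := (min_le_left _ _).trans (min_le_right _ _)
  have hRs3 : Rs ≤ 1 := (min_le_right _ _).trans (min_le_left _ _)
  have hRs4 : Rs ≤ dM / 4 := (min_le_right _ _).trans (min_le_right _ _)
  set C₅ : ℝ := 48 * C / (c₀ * ν) with hC₅
  have hC₅0 : 0 < C₅ := by positivity
  set ϱ : ℝ := min (Rs / 48) ((Rs / 64) ^ L / C₅) with hϱ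
  have hϱ0 : 0 < ϱ := lt_min (by positivity) (by positivity)
  have hϱ1 : 48 * ϱ ≤ Rs := by
    have : ϱ ≤ Rs / 48 := min_le_left _ _
    linarith
  have hϱ2 : C₅ * ϱ ≤ (Rs / 64) ^ L := by
    have : ϱ ≤ (Rs / 64) ^ L / C₅ := min_le_right _ _
    rw [le_div_iff₀ hC₅0] at this
    linarith
  refine ⟨ϱ, hϱ0, fun η hη => ?_⟩
  obtain ⟨T, hT⟩ := hS η hη
  obtain ⟨δ, hδ, hδ1, hfarT⟩ := far_all hC hJ hd hx η hη T
  obtain ⟨N₀, hN₀⟩ : ∃ N₀ : ℕ, C₅ * ν ^ N₀ * ϱ < δ ^ L := by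
    have h1 : Tendsto (fun j : ℕ => C₅ * ν ^ j * ϱ) atTop (𝓝 0) := by
      have := ((tendsto_pow_atTop_nhds_zero_of_lt_one hν0.le hν1).const_mul C₅).mul_const ϱ
      rwa [mul_zero, zero_mul] at this
    exact (h1.eventually_lt_const (pow_pos hδ L)).exists
  refine ⟨T + N₀, fun n hn z hz hfar => ?_⟩
  have hfar' : Far x η z := hfar
  -- the states
  have key : ∀ mm : ℕ, mm < n → ∀ l, cho ((hF x)^[mm] z) (c l, 1) ^ (m l + 1) ≤
      C₅ * ν ^ (n - mm) * ϱ → False := by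
    intro mm
    induction mm using Nat.strong_induction_on with
    | _ mm ih =>
    intro hmn l hB
    have hLl := hL l
    by_cases hmT : mm < T
    · have h1 := hfarT mm hmT z hz hfar' (c l, 1) (hci l) (hJc l)
      have h2 : C₅ * ν ^ (n - mm) * ϱ ≤ C₅ * ν ^ N₀ * ϱ := by
        have : ν ^ (n - mm) ≤ ν ^ N₀ := pow_le_pow_of_le_one hν0.le hν1.le (by omega)
        have h3 := mul_le_mul_of_nonneg_left this hC₅0.le
        exact mul_le_mul_of_nonneg_right h3 hϱ0.le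
      have h3 : δ ^ L ≤ δ ^ (m l + 1) := pow_le_pow_of_le_one hδ.le hδ1 hLl
      have h4 : δ ^ (m l + 1) ≤ cho ((hF x)^[mm] z) (c l, 1) ^ (m l + 1) :=
        pow_le_pow_left₀ hδ.le h1.le _
      linarith
    · push Not at hmT
      set B : ℝ := C₅ * ν ^ (n - mm) * ϱ with hBdef
      have hB0 : 0 < B := by positivity
      have hBle : B ≤ (Rs / 64) ^ (m l + 1) := by
        have h1 : ν ^ (n - mm) ≤ 1 := pow_le_one₀ hν0.le hν1.le
        have h2 : B ≤ C₅ * ϱ := by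
          rw [hBdef]
          have : C₅ * ν ^ (n - mm) ≤ C₅ * 1 := mul_le_mul_of_nonneg_left h1 hC₅0.le
          calc C₅ * ν ^ (n - mm) * ϱ ≤ C₅ * 1 * ϱ := mul_le_mul_of_nonneg_right this hϱ0.le
            _ = C₅ * ϱ := by ring
        have h3 : (Rs / 64) ^ L ≤ (Rs / 64) ^ (m l + 1) :=
          pow_le_pow_of_le_one (by positivity) (by linarith) hLl
        linarith
      obtain ⟨b, hb0, hbpow⟩ : ∃ b : ℝ, 0 < b ∧ b ^ (m l + 1) = B := by
        refine ⟨B ^ (((m l + 1 : ℕ) : ℝ)⁻¹), Real.rpow_pos_of_pos hB0 _, ?_⟩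
        exact Real.rpow_inv_natCast_pow hB0.le (by omega)
      have hbR : b ≤ Rs / 64 := by
        rw [← hbpow] at hBle
        exact le_of_pow_le_pow_left₀ (by omega) (by positivity) hBle
      have hchob : cho ((hF x)^[mm] z) (c l, 1) ≤ b := by
        rw [← hbpow] at hB
        exact le_of_pow_le_pow_left₀ (by omega) hb0.le hB
      set R : ℝ := 64 * b with hRdef
      have hR0 : 0 < R := by positivity
      have hRRs : R ≤ Rs := by rw [hRdef]; linarith
      have hw0 := hx.iter_ne mm hz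
      obtain ⟨τ, y, hy, hwy⟩ := chart ((hF x)^[mm] z) hw0
      have hcy : cho (iot τ y) (c l, 1) ≤ b := by
        rw [← cho_par hC hw0 (iot_ne τ y) hwy]
        exact hchob
      obtain ⟨u, hu, hucr⟩ := near2 τ y hy (R / 8) (by positivity) (by linarith) (c l, 1) (hci l)
        (by rw [hRdef]; linarith)
      rcases hhit R hR0 (hRRs.trans hRs2) mm τ y z hz hwy with ⟨g, hg, hgz⟩ | ⟨j, hj, i, g1, g2⟩
      · exact branch_contra hC hJ hd hx hz hfar' hR0 hg hgz hu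
          (fun hJu => hT mm hmT τ y R g hR0 (hRRs.trans hRs1) hg u hu hJu) (hci l) (hJc l) hucr
      · -- a hit
        set v : ℂ × ℂ := hF x (c i, 1) with hv
        have hvl : cho ((hF x)^[j] v) (c l, 1) ≤ 3 * R := by
          have t1 := hC.1 ((hF x)^[j] v) (iot τ y) (c l, 1) (hv0 i j) (iot_ne τ y) (hci l)
          rw [hRdef] at g1 ⊢
          linarith
        have hjM : M ≤ j := by
          by_contra hlt
          push Not at hlt
          have := hdMle (⟨j, hlt⟩, i, l)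
          simp only at this
          linarith
        have hrec' : c₀ * μ ^ (j + 1) ≤ sdn x j v * (C₁ * (3 ^ L * R ^ m l)) := by
          refine (hrec i l j).trans ?_
          refine mul_le_mul_of_nonneg_left ?_ (hsdn0 i j).le
          refine mul_le_mul_of_nonneg_left ?_ hC₁.le
          calc cho ((hF x)^[j] v) (c l, 1) ^ m l ≤ (3 * R) ^ m l :=
                pow_le_pow_left₀ (cho_nn hC _ _) hvl _
            _ = 3 ^ m l * R ^ m l := mul_pow _ _ _
            _ ≤ 3 ^ L * R ^ m l := by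
                refine mul_le_mul_of_nonneg_right ?_ (by positivity)
                exact pow_le_pow_right₀ (by norm_num) (by omega)
        set X : ℝ := cho ((hF x)^[mm - 1 - j] z) (c i, 1) ^ (m i + 1) with hX
        have hX0 : 0 ≤ X := pow_nonneg (cho_nn hC _ _) _
        have e1 : X * (c₀ * μ ^ (j + 1)) ≤ (C * θ ^ j * R) * (C₁ * (3 ^ L * R ^ m l)) := by
          calc X * (c₀ * μ ^ (j + 1)) ≤ X * (sdn x j v * (C₁ * (3 ^ L * R ^ m l))) :=
                mul_le_mul_of_nonneg_left hrec' hX0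
            _ = (X * sdn x j v) * (C₁ * (3 ^ L * R ^ m l)) := by ring
            _ ≤ _ := mul_le_mul_of_nonneg_right g2 (by positivity)
        have hRpow : R ^ (m l + 1) ≤ 64 ^ L * B := by
          rw [hRdef, mul_pow, hbpow]
          refine mul_le_mul_of_nonneg_right ?_ hB0.le
          exact pow_le_pow_right₀ (by norm_num) hLl
        have e2 : X ≤ C'' * (ν ^ j * ν ^ j) * B := by
          have e3 : X ≤ (C * θ ^ j * R) * (C₁ * (3 ^ L * R ^ m l)) / (c₀ * μ ^ (j + 1)) := by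
            rw [le_div_iff₀ (by positivity)]
            exact e1
          have e4 : (C * θ ^ j * R) * (C₁ * (3 ^ L * R ^ m l)) / (c₀ * μ ^ (j + 1)) =
              (C * C₁ * 3 ^ L / (c₀ * μ)) * (θ ^ j / μ ^ j) * R ^ (m l + 1) := by
            rw [pow_succ μ, pow_succ R]
            field_simp
          rw [e4, hrate] at e3
          refine e3.trans ?_
          calc (C * C₁ * 3 ^ L / (c₀ * μ)) * (ν ^ j * ν ^ j) * R ^ (m l + 1)
              ≤ (C * C₁ * 3 ^ L / (c₀ * μ)) * (ν ^ j * ν ^ j) * (64 ^ L * B) :=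
                mul_le_mul_of_nonneg_left hRpow (by positivity)
            _ = C'' * (ν ^ j * ν ^ j) * B := by rw [hC'']; ring
        have e5 : X ≤ ν ^ (j + 1) * B := by
          refine e2.trans ?_
          refine mul_le_mul_of_nonneg_right ?_ hB0.le
          calc C'' * (ν ^ j * ν ^ j) = (C'' * ν ^ j) * ν ^ j := by ring
            _ ≤ ν * ν ^ j := mul_le_mul_of_nonneg_right (hM j hjM) (by positivity)
            _ = ν ^ (j + 1) := by ring
        refine ih (mm - 1 - j) (by omega) (by omega) i ?_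
        refine e5.trans (le_of_eq ?_)
        rw [hBdef]
        have : n - (mm - 1 - j) = (j + 1) + (n - mm) := by omega
        rw [this, pow_add]
        ring
  -- the start
  intro q hq hJq
  by_contra hlt
  push Not at hlt
  have hw0 := hx.iter_ne n hz
  obtain ⟨τ, y, hy, hwy⟩ := chart ((hF x)^[n] z) hw0
  have hcy : cho (iot τ y) q < ϱ := by
    rw [← cho_par hC hw0 (iot_ne τ y) hwy]
    exact hlt
  have hR0 : 0 < 48 * ϱ := by positivity
  obtain ⟨u, hu, hucr⟩ := near2 τ y hy (48 * ϱ / 8) (by positivity) (by linarith) q hq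
    (by linarith)
  rcases hhit (48 * ϱ) hR0 (hϱ1.trans hRs2) n τ y z hz hwy with ⟨g, hg, hgz⟩ | ⟨j, hj, i, g1, g2⟩
  · exact branch_contra hC hJ hd hx hz hfar' hR0 hg hgz hu
      (fun hJu => hT n (by omega) τ y (48 * ϱ) g hR0 (hϱ1.trans hRs1) hg u hu hJu) hq hJq hucr
  · refine key (n - 1 - j) (by omega) i ?_
    set X : ℝ := cho ((hF x)^[n - 1 - j] z) (c i, 1) ^ (m i + 1) with hX
    have hX0 : 0 ≤ X := pow_nonneg (cho_nn hC _ _) _
    have e1 : X * (c₀ * μ ^ j) ≤ C * θ ^ j * (48 * ϱ) :=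
      (mul_le_mul_of_nonneg_left (hexp i j) hX0).trans g2
    have e2 : X ≤ C * θ ^ j * (48 * ϱ) / (c₀ * μ ^ j) := by
      rw [le_div_iff₀ (by positivity)]
      exact e1
    have e3 : C * θ ^ j * (48 * ϱ) / (c₀ * μ ^ j) = (48 * C / c₀) * (θ ^ j / μ ^ j) * ϱ := by
      field_simp
    rw [e3, hrate] at e2
    have e4 : ν ^ j * ν ^ j ≤ ν ^ j := mul_le_of_le_one_right (by positivity)
      (pow_le_one₀ hν0.le hν1.le)
    have hnj : n - (n - 1 - j) = j + 1 := by omega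
    rw [hnj]
    refine e2.trans ?_
    refine mul_le_mul_of_nonneg_right ?_ hϱ0.le
    calc (48 * C / c₀) * (ν ^ j * ν ^ j) ≤ (48 * C / c₀) * ν ^ j :=
          mul_le_mul_of_nonneg_left e4 (by positivity)
      _ = C₅ * ν ^ (j + 1) := by
          rw [hC₅, pow_succ]
          field_simp

end Pool.Agent.H766.HY211.DJ

namespace Pool.Agent.H766.HY211

open Pool.Agent.H211.HY in
theorem t_DEEPJ (hC : S_CHO) (hJ : S_JUL) (hSHJ : S_SHJ) (hHIT : S_HITL) : S_DEEPJ :=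
  DJ.t_DEEPJ hC hJ hSHJ hHIT

end Pool.Agent.H766.HY211
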